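import Pool.Agent.Q122.DetNS.CaseB

/-!
# At most two generators divide `h`: then `h` has one factorization
-/

namespace Q122.DetNS

variable {n : ℕ} {a : Fin n → ℕ} {h α : ℤ}

theorem InH.sub_of_pos {v : Fin n → ℕ} {l : Fin n} (hl : 1 ≤ v l) :
    InH a (∑ i, (v i : ℤ) * a i - a l) := by
  classical
  refine ⟨v - Pi.single l 1, ?_⟩
  have h1 : ∀ j, ((v - Pi.single l 1 : Fin n → ℕ) j : ℤ) * a j =
      (v j : ℤ) * a j - (if j = l then (a l : ℤ) else 0) := by
    intro j
    by_cases hj : j = l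
    · subst hj
      simp only [Pi.sub_apply, Pi.single_eq_same, if_true]
      push_cast [hl]
      ring
    · simp [hj, Pi.single_eq_of_ne hj]
  simp only [h1]
  rw [Finset.sum_sub_distrib]
  simp

theorem InH.two (i j : Fin n) (x y : ℕ) : InH a ((x : ℤ) * a i + (y : ℤ) * a j) :=
  (InH.smul x i).add (InH.smul y j)

/-- The data shared by `(h, α)` and the reversed pair `(h + n α, -α)`. -/
structure Dir {n : ℕ} (a : Fin n → ℕ) (h α : ℤ) : Prop where
  dual : ∀ u, InH a u → ¬ InH a (u + α) → InH a (h - u)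
  not_mem : ∀ r : ℕ, 1 ≤ r → r < n → ¬ InH a (h + r * α)
  pos : ¬ InH a α
  neg : ¬ InH a (-α)

theorem Dir.gap (hD : Dir a h α) {u : ℤ} (hu : InH a u)
    (hu2 : ¬ InH a (u + α)) {r : ℕ} (h1 : 1 ≤ r) (h2 : r < n) : ¬ InH a (u + r * α) := by
  intro hcon
  have h3 := hD.dual u hu hu2
  apply hD.not_mem r h1 h2
  have e : h + r * α = (u + r * α) + (h - u) := by ring
  rw [e]
  exact hcon.add h3

theorem Dir.ne (hD : Dir a h α) {u : ℤ} (hu : InH a u) : u + α ≠ 0 := by
  intro hcon
  apply hD.neg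
  have : -α = u := by linarith
  rw [this]; exact hu

theorem IsAP.dir (hn : 3 ≤ n) (ha : IsMinGen a) (hAP : IsAP a h α) : Dir a h α where
  dual := fun _ hu hu2 => hAP.dual ha.1 hu hu2
  not_mem := fun _ h1 h2 => hAP.not_mem h1 h2
  pos := hAP.alpha_not hn
  neg := fun hcon => by
    have h1 := hcon.nonneg
    have h2 := hAP.1
    linarith

theorem IsAP.dir' (hn : 3 ≤ n) (ha : IsMinGen a) (hAP : IsAP a h α) :
    Dir a (h + n * α) (-α) where
  dual := fun u hu hu2 => by
    obtain ⟨w, hw, hw2⟩ := exists_pf ha.1 hu2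
    rw [hAP.2] at hw2
    obtain ⟨j, hj1, hj2, hj⟩ := hw2
    rcases Nat.lt_or_ge (j + 1) n with hj3 | hj3
    · exfalso
      have h3 := hAP.not_mem (j := j + 1) (by omega) (by omega)
      apply h3
      have e : h + ((j + 1 : ℕ) : ℤ) * α = u + w := by
        push_cast; linarith
      rw [e]
      exact hu.add hw
    · have hjn : (n : ℤ) = j + 1 := by
        have : n = j + 1 := by omega
        exact_mod_cast this
      have e : h + n * α - u = w := by rw [hjn]; linarith
      rw [e]; exact hw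
  not_mem := fun r h1 h2 => by
    have h3 := hAP.not_mem (j := n - r) (by omega) (by omega)
    have e : h + n * α + r * (-α) = h + ((n - r : ℕ) : ℤ) * α := by
      rw [Nat.cast_sub h2.le]; ring
    rw [e]; exact h3
  pos := fun hcon => by
    have h1 := hcon.nonneg
    have h2 := hAP.1
    linarith
  neg := by
    rw [neg_neg]
    exact hAP.alpha_not hn

theorem small_core (hn : 3 ≤ n) (ha : IsMinGen a) (hAP : Dir a h α) {i j : Fin n} (hij : i ≠ j)
    (hU : ∀ l, InH a (h - a l) → l = i ∨ l = j) (r s r' s' : ℕ)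
    (e1 : h = (r : ℤ) * a i + (s : ℤ) * a j) (e2 : h = (r' : ℤ) * a i + (s' : ℤ) * a j)
    (hlt : r < r') : False := by
  classical
  obtain ⟨hg, hmin⟩ := ha
  have hpos : ∀ i, 0 < a i := fun i => (hmin i).1
  have hαn := hAP.pos
  have hlt2 : s' < s := by
    by_contra hcon
    push Not at hcon
    have h1 : (r : ℤ) * a i < (r' : ℤ) * a i := by
      have : (0 : ℤ) < a i := by exact_mod_cast hpos i
      have h2 : (r : ℤ) < r' := by exact_mod_cast hlt
      nlinarith
    have h2 : (s : ℤ) * a j ≤ (s' : ℤ) * a j := by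
      have : (0 : ℤ) < a j := by exact_mod_cast hpos j
      have h2 : (s : ℤ) ≤ s' := by exact_mod_cast hcon
      nlinarith
    linarith
  obtain ⟨d, rfl⟩ := Nat.exists_eq_add_of_lt hlt
  obtain ⟨e, rfl⟩ := Nat.exists_eq_add_of_lt hlt2
  -- `(d+1) a_i = (e+1) a_j`
  have hde : ((d : ℤ) + 1) * a i = ((e : ℤ) + 1) * a j := by
    push_cast at e1 e2
    linarith
  have hex : ∃ V : ℕ, ∃ x y : ℕ, V = x * a i + y * a j ∧ InH a ((V : ℤ) + α) := by
    obtain ⟨N, hN⟩ := exists_large (a := a) hg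
    refine ⟨(N - α).toNat * a i, (N - α).toNat, 0, by simp, ?_⟩
    apply hN
    have h1 : N - α ≤ ((N - α).toNat : ℤ) := Int.self_le_toNat _
    have h2 : (1 : ℤ) ≤ a i := by exact_mod_cast hpos i
    have h3 : (0 : ℤ) ≤ (N - α).toNat := by positivity
    push_cast
    nlinarith
  obtain ⟨x, y, hV, hVα⟩ := Nat.find_spec hex
  set V := Nat.find hex with hVdef
  have hVmin : ∀ m < V, ∀ x y : ℕ, m = x * a i + y * a j → ¬ InH a ((m : ℤ) + α) := by
    intro m hm x y hxy hcon
    exact Nat.find_min hex hm ⟨x, y, hxy, hcon⟩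
  have hVZ : (V : ℤ) = (x : ℤ) * a i + (y : ℤ) * a j := by
    rw [hV]; push_cast; ring
  have hnot1 : ∀ z : ℤ, InH a z → h - V = z → False := by
    intro z hz hz2
    apply hAP.not_mem 1 (le_refl _) (by omega)
    have e3 : h + ((1 : ℕ) : ℤ) * α = (V + α) + z := by push_cast; linarith
    rw [e3]
    exact hVα.add hz
  have hI : ∃ x y : ℕ, (V : ℤ) = ((x : ℤ) + 1) * a i + (y : ℤ) * a j := by
    rcases Nat.eq_zero_or_pos x with hx | hx
    · subst hx
      by_cases hy : e + 1 ≤ y
      · obtain ⟨y', rfl⟩ := Nat.exists_eq_add_of_le hy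
        refine ⟨d, y', ?_⟩
        rw [hVZ, hde]
        push_cast
        ring
      · exfalso
        push Not at hy
        obtain ⟨z, hz⟩ := Nat.exists_eq_add_of_lt hy
        apply hnot1 ((r : ℤ) * a i + ((s' + z + 1 : ℕ) : ℤ) * a j) (InH.two i j _ _)
        rw [hVZ, e1]
        have hz' : (e : ℤ) + 1 = y + z + 1 := by exact_mod_cast hz
        push_cast
        have : (e : ℤ) = y + z := by linarith
        rw [this]
        ring
    · obtain ⟨x', rfl⟩ : ∃ x', x = x' + 1 := ⟨x - 1, by omega⟩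
      refine ⟨x', y, ?_⟩
      rw [hVZ]; push_cast; ring
  have hJ : ∃ x y : ℕ, (V : ℤ) = (x : ℤ) * a i + ((y : ℤ) + 1) * a j := by
    rcases Nat.eq_zero_or_pos y with hy | hy
    · subst hy
      by_cases hx : d + 1 ≤ x
      · obtain ⟨x', rfl⟩ := Nat.exists_eq_add_of_le hx
        refine ⟨x', e, ?_⟩
        rw [hVZ, ← hde]
        push_cast
        ring
      · exfalso
        push Not at hx
        obtain ⟨z, hz⟩ := Nat.exists_eq_add_of_lt hx
        apply hnot1 (((r + z + 1 : ℕ) : ℤ) * a i + (s' : ℤ) * a j) (InH.two i j _ _)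
        rw [hVZ, e2]
        have hz' : (d : ℤ) + 1 = x + z + 1 := by exact_mod_cast hz
        push_cast
        have : (d : ℤ) = x + z := by linarith
        rw [this]
        ring
    · obtain ⟨y', rfl⟩ : ∃ y', y = y' + 1 := ⟨y - 1, by omega⟩
      refine ⟨x, y', ?_⟩
      rw [hVZ]; push_cast; ring
  -- `V - a_g ∈ A` for `g = i, j`
  have hA : ∀ g, g = i ∨ g = j → InH a ((V : ℤ) - a g) ∧ ¬ InH a ((V : ℤ) - a g + α) := by
    intro g hg'
    rcases hg' with rfl | rfl
    · obtain ⟨x, y, hxy⟩ := hI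
      have e3 : (V : ℤ) - a g = (x : ℤ) * a g + (y : ℤ) * a j := by rw [hxy]; ring
      refine ⟨by rw [e3]; exact InH.two g j x y, ?_⟩
      have e4 : ((x * a g + y * a j : ℕ) : ℤ) = (V : ℤ) - a g := by rw [e3]; push_cast; ring
      rw [← e4]
      apply hVmin _ _ x y rfl
      have h1 : 0 < a g := hpos g
      have h2 : ((x * a g + y * a j : ℕ) : ℤ) < V := by rw [e4]; linarith [(Int.natCast_pos.mpr h1)]
      exact_mod_cast h2
    · obtain ⟨x, y, hxy⟩ := hJ
      have e3 : (V : ℤ) - a g = (x : ℤ) * a i + (y : ℤ) * a g := by rw [hxy]; ring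
      refine ⟨by rw [e3]; exact InH.two i g x y, ?_⟩
      have e4 : ((x * a i + y * a g : ℕ) : ℤ) = (V : ℤ) - a g := by rw [e3]; push_cast; ring
      rw [← e4]
      apply hVmin _ _ x y rfl
      have h1 : 0 < a g := hpos g
      have h2 : ((x * a i + y * a g : ℕ) : ℤ) < V := by rw [e4]; linarith [(Int.natCast_pos.mpr h1)]
      exact_mod_cast h2
  -- the successor map outside `{i, j}`
  have hsucc : ∀ l, ∃ m, (l ≠ i ∧ l ≠ j) → InH a ((a l : ℤ) + α - a m) := by
    intro l
    by_cases hl : l ≠ i ∧ l ≠ j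
    · have h1 : InH a ((a l : ℤ) + α) := by
        by_contra hcon
        have h2 := hAP.dual _ (InH.gen l) hcon
        rcases hU l h2 with h3 | h3
        · exact hl.1 h3
        · exact hl.2 h3
      obtain ⟨m, hm⟩ := exists_sub h1 (hAP.ne (InH.gen l))
      exact ⟨m, fun _ => hm⟩
    · exact ⟨l, fun hc => absurd hc hl⟩
  choose σ hσ using hsucc
  obtain ⟨f0, hf0⟩ := exists_sub hVα (hAP.ne (by rw [hVZ]; exact InH.two i j x y))
  set f : ℕ → Fin n := fun k => σ^[k] f0 with hf
  have hfs : ∀ k, f (k + 1) = σ (f k) := by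
    intro k
    simp only [hf, Function.iterate_succ_apply']
  have main : ∀ k : ℕ, k + 2 ≤ n →
      InH a ((V : ℤ) + ((k : ℤ) + 1) * α - a (f k)) ∧ (f k ≠ i ∧ f k ≠ j) := by
    intro k
    induction k with
    | zero =>
      intro _
      have h1 : InH a ((V : ℤ) + (((0 : ℕ) : ℤ) + 1) * α - a (f 0)) := by
        have e5 : (V : ℤ) + (((0 : ℕ) : ℤ) + 1) * α - a (f 0) = (V : ℤ) + α - a f0 := by
          simp [hf]
        rw [e5]; exact hf0
      refine ⟨h1, ?_⟩
      have h2 : ∀ g, g = i ∨ g = j → f 0 ≠ g := by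
        intro g hg' hcon
        apply (hA g hg').2
        rw [hcon] at h1
        have e5 : (V : ℤ) - a g + α = (V : ℤ) + (((0 : ℕ) : ℤ) + 1) * α - a g := by
          push_cast; ring
        rw [e5]; exact h1
      exact ⟨h2 i (Or.inl rfl), h2 j (Or.inr rfl)⟩
    | succ k ih =>
      intro hk
      obtain ⟨ih1, ih2⟩ := ih (by omega)
      have h1 : InH a ((V : ℤ) + (((k + 1 : ℕ) : ℤ) + 1) * α - a (f (k + 1))) := by
        rw [hfs]
        have e5 : (V : ℤ) + (((k + 1 : ℕ) : ℤ) + 1) * α - a (σ (f k)) =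
            ((V : ℤ) + ((k : ℤ) + 1) * α - a (f k)) + ((a (f k) : ℤ) + α - a (σ (f k))) := by
          push_cast; ring
        rw [e5]
        exact ih1.add (hσ _ ih2)
      refine ⟨h1, ?_⟩
      have h2 : ∀ g, g = i ∨ g = j → f (k + 1) ≠ g := by
        intro g hg' hcon
        have h3 := hAP.gap (hA g hg').1 (hA g hg').2 (r := k + 2) (by omega) (by omega)
        apply h3
        rw [hcon] at h1
        have e5 : (V : ℤ) - a g + ((k + 2 : ℕ) : ℤ) * α =
            (V : ℤ) + (((k + 1 : ℕ) : ℤ) + 1) * α - a g := by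
          push_cast; ring
        rw [e5]; exact h1
      exact ⟨h2 i (Or.inl rfl), h2 j (Or.inr rfl)⟩
  have chain : ∀ k d : ℕ, k + d + 2 ≤ n → InH a ((a (f k) : ℤ) + (d : ℤ) * α - a (f (k + d))) := by
    intro k d
    induction d with
    | zero =>
      intro _
      have e5 : (a (f k) : ℤ) + ((0 : ℕ) : ℤ) * α - a (f (k + 0)) = 0 := by simp
      rw [e5]; exact InH.zero
    | succ d ih =>
      intro hd
      have h1 := ih (by omega)
      have h2 := hσ _ (main (k + d) (by omega)).2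
      have e5 : (a (f k) : ℤ) + ((d + 1 : ℕ) : ℤ) * α - a (f (k + (d + 1))) =
          ((a (f k) : ℤ) + (d : ℤ) * α - a (f (k + d))) +
            ((a (f (k + d)) : ℤ) + α - a (σ (f (k + d)))) := by
        rw [← add_assoc, hfs]
        push_cast; ring
      rw [e5]
      exact h1.add h2
  have hcard : ((Finset.univ.erase i).erase j).card < (Finset.range (n - 1)).card := by
    rw [Finset.card_erase_of_mem (by simp [hij.symm]), Finset.card_erase_of_mem (by simp)]
    simp only [Finset.card_univ, Fintype.card_fin, Finset.card_range]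
    omega
  obtain ⟨k, hk, k', hk', hne, heq⟩ := Finset.exists_ne_map_eq_of_card_lt_of_maps_to hcard
    (f := f) (by
      intro k hk
      have hk2 : k < n - 1 := by simpa using hk
      have := (main k (by omega)).2
      simp [this.1, this.2])
  have key : ∀ k k' : ℕ, k < k' → k' < n - 1 → f k = f k' → False := by
    intro k k' hkk hk' heq
    obtain ⟨d, rfl⟩ := Nat.exists_eq_add_of_lt hkk
    have h1 := chain k (d + 1) (by omega)
    have e5 : (a (f k) : ℤ) + ((d + 1 : ℕ) : ℤ) * α - a (f (k + (d + 1))) =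
        0 + ((d + 1 : ℕ) : ℤ) * α := by
      rw [← add_assoc, ← heq]; ring
    rw [e5] at h1
    exact hAP.gap (InH.zero (a := a)) (by simpa using hαn) (r := d + 1) (by omega) (by omega) h1
  have hk2 : k < n - 1 := by simpa using hk
  have hk2' : k' < n - 1 := by simpa using hk'
  rcases lt_or_gt_of_ne hne with hlt' | hlt'
  · exact key k k' hlt' hk2' heq
  · exact key k' k hlt' hk2 heq.symm

theorem small_unique (hn : 3 ≤ n) (ha : IsMinGen a) (hAP : Dir a h α)
    (hU : ∃ i j, ∀ l, InH a (h - a l) → l = i ∨ l = j) :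
    ∃! v : Fin n → ℕ, h = ∑ i, (v i : ℤ) * a i := by
  classical
  have hpos : ∀ i, 0 < a i := fun i => (ha.2 i).1
  obtain ⟨i, j, hij, hU⟩ : ∃ i j, i ≠ j ∧ ∀ l, InH a (h - a l) → l = i ∨ l = j := by
    obtain ⟨i, j, hU⟩ := hU
    by_cases hij : i = j
    · subst hij
      have : Nontrivial (Fin n) := Fin.nontrivial_iff_two_le.mpr (by omega)
      obtain ⟨j, hj⟩ := exists_ne i
      exact ⟨i, j, hj.symm, fun l hl => by
        rcases hU l hl with h1 | h1 <;> exact Or.inl h1⟩
    · exact ⟨i, j, hij, hU⟩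
  have hh : InH a h := by
    have := hAP.dual 0 (InH.zero (a := a)) (by simpa using hAP.pos)
    simpa using this
  have hzero : ∀ v : Fin n → ℕ, h = ∑ i, (v i : ℤ) * a i → ∀ l, l ≠ i ∧ l ≠ j → v l = 0 := by
    intro v hv l hl
    by_contra hcon
    have h1 : InH a (h - a l) := by
      rw [hv]; exact InH.sub_of_pos (Nat.one_le_iff_ne_zero.mpr hcon)
    rcases hU l h1 with h2 | h2
    · exact hl.1 h2
    · exact hl.2 h2
  have htwo : ∀ v : Fin n → ℕ, h = ∑ i, (v i : ℤ) * a i →
      h = (v i : ℤ) * a i + (v j : ℤ) * a j := by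
    intro v hv
    rw [hv]
    refine Fintype.sum_eq_add i j hij ?_
    intro l hl
    rw [hzero v hv l hl]; simp
  obtain ⟨v, hv⟩ := hh
  refine ⟨v, hv, ?_⟩
  intro w hw
  have h1 := htwo v hv
  have h2 := htwo w hw
  have hij2 : w i = v i := by
    rcases lt_trichotomy (w i) (v i) with h3 | h3 | h3
    · exact (small_core hn ha hAP hij hU _ _ _ _ h2 h1 h3).elim
    · exact h3
    · exact (small_core hn ha hAP hij hU _ _ _ _ h1 h2 h3).elim
  have hjj2 : w j = v j := by
    have h3 : (w j : ℤ) * a j = (v j : ℤ) * a j := by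
      rw [hij2] at h2; linarith
    have h4 : (a j : ℤ) ≠ 0 := by exact_mod_cast (hpos j).ne'
    exact_mod_cast mul_right_cancel₀ h4 h3
  funext l
  by_cases hli : l = i
  · rw [hli]; exact hij2
  · by_cases hlj : l = j
    · rw [hlj]; exact hjj2
    · rw [hzero v hv l ⟨hli, hlj⟩, hzero w hw l ⟨hli, hlj⟩]

end Q122.DetNS
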